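import Pool.Agent.Helper6.LPB.St

/-!
# Project LPB (MP_5e9b96_nt), module AVG: the mean value of the density
-/

set_option autoImplicit false

noncomputable section

namespace Pool.Agent.Helper3.LPB

open Finset
open Pool.Agent.Helper60.LZ (js bp bl StBAD)
open Pool.Agent.Helper98.LM (QQ)
open Pool.Agent.Helper6.LP
open Pool.Agent.Helper6.LPB

private theorem VVnn (p w P a y : ℕ) : 0 ≤ VV p w P a y := by
  unfold VV
  refine Finset.prod_nonneg fun l hl => ?_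
  have h1 : (SS P a y l).card ≤ l := by
    unfold SS
    refine (Finset.card_filter_le _ _).trans ?_
    rw [Finset.card_range]
  have h2 : ((SS P a y l).card : ℝ) ≤ l := by exact_mod_cast h1
  have h3 : ((SS P a y l).card : ℝ) / l ≤ 1 := div_le_one_of_le₀ h2 (Nat.cast_nonneg l)
  linarith

private theorem large (Z ε : ℝ) (hε : 0 < ε) : ∃ I₀ : ℕ, ∀ I : ℕ, I₀ ≤ I →
    Z ≤ (I : ℝ) ∧ 1 ≤ Real.log I ∧ Z ≤ Real.log I ∧ Real.log I ^ 10 ≤ ε * I := by
  have t1 : ∀ᶠ I : ℕ in Filter.atTop, Z ≤ (I : ℝ) :=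
    tendsto_natCast_atTop_atTop.eventually_ge_atTop Z
  have hlog : Filter.Tendsto (fun I : ℕ => Real.log (I : ℝ)) Filter.atTop Filter.atTop :=
    Real.tendsto_log_atTop.comp tendsto_natCast_atTop_atTop
  have t2 := hlog.eventually_ge_atTop (max 1 Z)
  have t3 : ∀ᶠ I : ℕ in Filter.atTop, Real.log I ^ 10 ≤ ε * I := by
    have h1 := (Real.isLittleO_pow_log_id_atTop (n := 10)).comp_tendsto tendsto_natCast_atTop_atTop
    filter_upwards [h1.def hε] with I hI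
    simp only [Function.comp_apply, id, Real.norm_eq_abs] at hI
    rw [abs_of_nonneg (Nat.cast_nonneg I : (0 : ℝ) ≤ I)] at hI
    exact (le_abs_self _).trans hI
  obtain ⟨I₀, h⟩ := Filter.eventually_atTop.1 (t1.and (t2.and t3))
  exact ⟨I₀, fun I hI => ⟨(h I hI).1, (le_max_left _ _).trans (h I hI).2.1,
    (le_max_right _ _).trans (h I hI).2.1, (h I hI).2.2⟩⟩

private theorem root (B K z₀ : ℕ) (hB : 1 ≤ B) (h : z₀ ^ B ≤ K) :
    ∃ z : ℕ, z₀ ≤ z ∧ z ^ B ≤ K ∧ K < (z + 1) ^ B := by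
  classical
  have h1 : ∃ k : ℕ, K < (k + 1) ^ B :=
    ⟨K, lt_of_lt_of_le (Nat.lt_succ_self K) (Nat.le_self_pow (by omega) _)⟩
  have h2 := Nat.find_spec h1
  refine ⟨Nat.find h1, ?_, ?_, h2⟩
  · by_contra hc
    have h3 : Nat.find h1 + 1 ≤ z₀ := by omega
    have h4 := Nat.pow_le_pow_left h3 B
    exact absurd (h4.trans h) (not_le.2 h2)
  · rcases Nat.eq_zero_or_pos (Nat.find h1) with h0 | h0
    · rw [h0, zero_pow (by omega)]
      exact Nat.zero_le _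
    · obtain ⟨m, hm⟩ := Nat.exists_eq_succ_of_ne_zero h0.ne'
      have h3 := Nat.find_min h1 (m := m) (by omega)
      rw [hm]
      exact not_lt.1 h3

private theorem split (S B1 B2 : Finset ℕ) (f g : ℕ → ℝ) (T1 T3 : ℝ) (hT1 : 0 ≤ T1)
    (hT3 : 0 ≤ T3) (hS : ∀ y ∈ S, 5 ≤ y) (hg : ∀ y ∈ S, 0 ≤ g y) (h1 : ∀ y ∈ S, f y ≤ T1)
    (h3 : ∀ y ∈ S, 6 ≤ y → y - 2 ∉ B1 → f y ≤ T3)
    (h2 : ∀ y ∈ S, 6 ≤ y → y - 2 ∉ B2 → f y ≤ g y) :
    ∑ y ∈ S, f y ≤ ∑ y ∈ S, g y + (1 + (B1.card : ℝ)) * T1 + B2.card * T3 := by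
  classical
  have key : ∀ y ∈ S, f y ≤ g y + (if y = 5 then T1 else 0) + (if y - 2 ∈ B1 then T1 else 0) +
      (if y - 2 ∈ B2 then T3 else 0) := by
    intro y hy
    have e0 := hg y hy
    have e1 := h1 y hy
    have a1 : 0 ≤ (if y = 5 then T1 else 0) := by split_ifs <;> linarith
    have a2 : 0 ≤ (if y - 2 ∈ B1 then T1 else 0) := by split_ifs <;> linarith
    have a3 : 0 ≤ (if y - 2 ∈ B2 then T3 else 0) := by split_ifs <;> linarith
    by_cases c5 : y = 5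
    · have : (if y = 5 then T1 else 0) = T1 := if_pos c5
      linarith
    have h6 : 6 ≤ y := by have := hS y hy; omega
    by_cases c1 : y - 2 ∈ B1
    · have : (if y - 2 ∈ B1 then T1 else 0) = T1 := if_pos c1
      linarith
    by_cases c2 : y - 2 ∈ B2
    · have : (if y - 2 ∈ B2 then T3 else 0) = T3 := if_pos c2
      have := h3 y hy h6 c1
      linarith
    have := h2 y hy h6 c2
    linarith
  refine (Finset.sum_le_sum key).trans ?_
  rw [Finset.sum_add_distrib, Finset.sum_add_distrib, Finset.sum_add_distrib]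
  have b0 : ∑ y ∈ S, (if y = 5 then T1 else 0) ≤ T1 := by
    rw [Finset.sum_ite_eq']
    split_ifs <;> linarith
  have bc : ∀ (B : Finset ℕ) (T : ℝ), 0 ≤ T → ∑ y ∈ S, (if y - 2 ∈ B then T else 0) ≤ B.card * T := by
    intro B T hT
    rw [← Finset.sum_filter, Finset.sum_const, nsmul_eq_mul]
    refine mul_le_mul_of_nonneg_right ?_ hT
    have : (S.filter (fun y => y - 2 ∈ B)).card ≤ B.card := by
      refine Finset.card_le_card_of_injOn (fun y => y - 2) ?_ ?_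
      · intro y hy
        exact (Finset.mem_filter.1 hy).2
      · intro a ha b hb hab
        have ha' := hS a (Finset.mem_filter.1 ha).1
        have hb' := hS b (Finset.mem_filter.1 hb).1
        simp only at hab
        omega
    exact_mod_cast this
  have b1 := bc B1 T1 hT1
  have b2 := bc B2 T3 hT3
  linarith

/-- Module AVG. -/
theorem hAVG (hA : StAVS) (hS : StSPB) (hB : StBAD) : StAVG := by
  classical
  obtain ⟨C1, hC1, B, hB1, HA⟩ := hA
  obtain ⟨C2, hC2, z₀, hz₀, HS⟩ := hS B hB1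
  obtain ⟨C3, hC3, HB⟩ := hB
  have hC10 : 0 < C1 := by linarith
  have hC20 : 0 < C2 := by linarith
  obtain ⟨e, hed⟩ : ∃ e : ℝ, e = Real.exp 1 := ⟨_, rfl⟩
  have he0 : 0 < e := by rw [hed]; exact Real.exp_pos 1
  refine ⟨C1 * C2 * e + 2, ?_, ?_⟩
  · have : 0 < C1 * C2 * e := by positivity
    linarith
  intro c hc
  obtain ⟨ε, hεd⟩ : ∃ ε : ℝ, ε = min (1 / 32) (min (c / (18 * C2)) (c / (54 * C2 * C3 * e))) :=
    ⟨_, rfl⟩
  have hε : 0 < ε := by
    rw [hεd]; exact lt_min (by norm_num) (lt_min (by positivity) (by positivity))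
  have hε1 : ε ≤ 1 / 32 := by rw [hεd]; exact min_le_left _ _
  have hε2 : ε * (18 * C2) ≤ c := by
    rw [← le_div_iff₀ (by positivity)]
    rw [hεd]; exact (min_le_right _ _).trans (min_le_left _ _)
  have hε3 : ε * (54 * C2 * C3 * e) ≤ c := by
    rw [← le_div_iff₀ (by positivity)]
    rw [hεd]; exact (min_le_right _ _).trans (min_le_right _ _)
  obtain ⟨I₀, hI₀⟩ := large (max (max c 16) (max ((z₀ ^ B : ℕ) : ℝ) (54 * C2 * C3 / c))) ε hε
  refine ⟨I₀, ?_⟩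
  intro I K hI hIK hKc
  obtain ⟨g1, g3, g4, g5⟩ := hI₀ I hI
  have hIc : c ≤ (I : ℝ) := ((le_max_left _ _).trans (le_max_left _ _)).trans g1
  have hI16 : (16 : ℝ) ≤ I := ((le_max_right _ _).trans (le_max_left _ _)).trans g1
  have hIz : ((z₀ ^ B : ℕ) : ℝ) ≤ I := ((le_max_left _ _).trans (le_max_right _ _)).trans g1
  obtain ⟨L, hLd⟩ : ∃ L : ℝ, L = Real.log I := ⟨_, rfl⟩
  rw [← hLd] at g3 g4 g5
  have hL4 : 54 * C2 * C3 / c ≤ L := ((le_max_right _ _).trans (le_max_right _ _)).trans g4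
  have hI0 : (0 : ℝ) < I := by linarith
  have hL0 : 0 < L := by linarith
  have hIn : 16 ≤ I := by exact_mod_cast hI16
  have hKI3 : (K : ℝ) ≤ (I : ℝ) ^ 3 := by
    refine hKc.trans ?_
    calc c * (I : ℝ) ^ 2 ≤ I * (I : ℝ) ^ 2 := mul_le_mul_of_nonneg_right hIc (by positivity)
      _ = (I : ℝ) ^ 3 := by ring
  have hKI3' : K ≤ I ^ 3 := by exact_mod_cast hKI3
  have hK16 : 16 ≤ K := hIn.trans hIK
  have hK0 : (0 : ℝ) < K := by exact_mod_cast (by omega : 0 < K)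
  have hlogK : Real.log K ≤ 3 * L := by
    have h1 := Real.log_le_log hK0 hKI3
    rw [Real.log_pow, ← hLd] at h1
    exact_mod_cast h1
  have hlogK0 : 0 ≤ Real.log (K : ℝ) := Real.log_natCast_nonneg _
  have hz0K : z₀ ^ B ≤ K := by
    have : z₀ ^ B ≤ I := by exact_mod_cast hIz
    exact this.trans hIK
  obtain ⟨z, hz1, hz2, hz3⟩ := root B K z₀ hB1 hz0K
  have hz40 : 40 ≤ z := hz₀.trans hz1
  have hzK : z ≤ K := (Nat.le_self_pow (by omega) z).trans hz2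
  have hz0 : (0 : ℝ) < z := by exact_mod_cast (by omega : 0 < z)
  obtain ⟨lz, hlz⟩ : ∃ lz : ℝ, lz = Real.log z := ⟨_, rfl⟩
  have hlz0 : 0 < lz := by
    rw [hlz]; exact Real.log_pos (by exact_mod_cast (by omega : 1 < z))
  have hlzL : lz ≤ 3 * L := by
    rw [hlz]
    exact (Real.log_le_log hz0 (by exact_mod_cast hzK)).trans hlogK
  -- the level
  obtain ⟨j0, hj0⟩ : ∃ j0 : ℕ, j0 = Nat.clog 2 (256 * K ^ 4) := ⟨_, rfl⟩
  have hKpos : 1 ≤ K := by omega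
  have hK4 : 1 ≤ K ^ 4 := Nat.one_le_pow _ _ hKpos
  have h256 : 1 < 256 * K ^ 4 := by omega
  have hj0a : 256 * K ^ 4 ≤ 2 ^ j0 := by rw [hj0]; exact Nat.le_pow_clog (by norm_num) _
  have hj01 : 1 ≤ j0 := by
    rw [hj0]
    exact Nat.clog_pos (by norm_num) (by omega)
  have hj0b : 2 ^ j0 ≤ 512 * K ^ 4 := by
    have h1 : 2 ^ (j0 - 1) < 256 * K ^ 4 := by
      rw [hj0]
      exact Nat.pow_pred_clog_lt_self (by norm_num) h256
    have h3 : 2 ^ j0 = 2 * 2 ^ (j0 - 1) := by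
      rw [← pow_succ']
      congr 1
      omega
    omega
  have hj0c : 2 ^ j0 ≤ I ^ 15 := by
    calc 2 ^ j0 ≤ 512 * K ^ 4 := hj0b
      _ ≤ 16 ^ 3 * (I ^ 3) ^ 4 := by
          apply Nat.mul_le_mul (by norm_num)
          exact Nat.pow_le_pow_left hKI3' 4
      _ ≤ I ^ 3 * (I ^ 3) ^ 4 := by
          apply Nat.mul_le_mul_right
          exact Nat.pow_le_pow_left hIn 3
      _ = I ^ 15 := by ring
  have hj0e : (j0 : ℝ) ≤ 30 * L := by
    have h1 : Real.log ((2 : ℝ) ^ j0) ≤ Real.log ((I : ℝ) ^ 15) :=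
      Real.log_le_log (by positivity) (by exact_mod_cast hj0c)
    rw [Real.log_pow, Real.log_pow, ← hLd] at h1
    push_cast at h1
    have h2 : (0 : ℝ) ≤ j0 := Nat.cast_nonneg _
    have h3 := Real.log_two_gt_d9
    have h4 : (j0 : ℝ) * (1 / 2) ≤ j0 * Real.log 2 := mul_le_mul_of_nonneg_left (by linarith) h2
    linarith
  -- powers of `L`
  have hL6 : 1 ≤ L ^ 6 := one_le_pow₀ g3
  have hL60 : 0 < L ^ 6 := by positivity
  have hL7 : L ^ 7 ≤ L ^ 10 := pow_le_pow_right₀ g3 (by norm_num)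
  have hL67 : L ^ 6 ≤ L ^ 10 := pow_le_pow_right₀ g3 (by norm_num)
  have hL2 : L ^ 2 ≤ L ^ 10 := pow_le_pow_right₀ g3 (by norm_num)
  have hεI : ε * I ≤ 1 / 32 * I := mul_le_mul_of_nonneg_right hε1 hI0.le
  have hxL : 30 * L + 2 ≤ (I : ℝ) / L ^ 6 := by
    rw [le_div_iff₀ hL60]
    have : (30 * L + 2) * L ^ 6 = 30 * L ^ 7 + 2 * L ^ 6 := by ring
    linarith
  obtain ⟨j1, hj1⟩ : ∃ j1 : ℕ, j1 = ⌊(I : ℝ) / L ^ 6⌋₊ := ⟨_, rfl⟩
  have hj1a : (j1 : ℝ) ≤ I / L ^ 6 := by rw [hj1]; exact Nat.floor_le (by positivity)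
  have hj1b : (I : ℝ) / L ^ 6 < j1 + 1 := by rw [hj1]; exact Nat.lt_floor_add_one _
  have hj1c : (I : ℝ) / L ^ 6 ≤ 2 * j1 := by linarith
  have hj1pos : (0 : ℝ) < j1 := by linarith
  have hj01' : j0 ≤ j1 := by
    have : (j0 : ℝ) ≤ j1 := by linarith
    exact_mod_cast this
  have hj1I' : (j1 : ℝ) ≤ I := by
    refine hj1a.trans ?_
    exact div_le_self hI0.le hL6
  have hj1I : j1 ≤ I := by exact_mod_cast hj1I'
  have hIj1 : (I : ℝ) / j1 ≤ 2 * L ^ 6 := by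
    rw [div_le_iff₀ hj1pos]
    rw [div_le_iff₀ hL60] at hj1c
    linarith
  -- the bad sets
  obtain ⟨B1, hB1d⟩ : ∃ B1 : Finset ℕ, B1 = (Icc 4 K).filter (fun t => 1 < ∑ j ∈ Ico j0 j1, |bl t j|) := ⟨_, rfl⟩
  obtain ⟨B2, hB2d⟩ : ∃ B2 : Finset ℕ, B2 = (Icc 4 K).filter (fun t => 1 < ∑ j ∈ Ico j0 I, |bl t j|) := ⟨_, rfl⟩
  have hB1c : (B1.card : ℝ) ≤ C3 * (I / L ^ 6 * L * (3 * L)) := by
    have h1 := HB K j0 j1 (by omega) hj0a hj01'
    rw [hB1d]
    refine h1.trans (mul_le_mul_of_nonneg_left ?_ hC3.le)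
    have h2 : Real.log j1 ≤ L := by
      rw [hLd]
      exact Real.log_le_log hj1pos hj1I'
    have h3 : 0 ≤ Real.log (j1 : ℝ) := Real.log_natCast_nonneg _
    gcongr
  have hB2c : (B2.card : ℝ) ≤ C3 * (I * L * (3 * L)) := by
    have h1 := HB K j0 I (by omega) hj0a (hj01'.trans hj1I)
    rw [hB2d]
    refine h1.trans (mul_le_mul_of_nonneg_left ?_ hC3.le)
    rw [← hLd]
    gcongr
  -- the three bounds
  have hsq : (lz / I) ^ 2 ≤ 9 * L ^ 2 / (I : ℝ) ^ 2 := by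
    rw [div_pow]
    refine div_le_div_of_nonneg_right ?_ (by positivity)
    calc lz ^ 2 ≤ (3 * L) ^ 2 := pow_le_pow_left₀ hlz0.le hlzL 2
      _ = 9 * L ^ 2 := by ring
  have hsq0 : 0 ≤ (lz / I) ^ 2 := sq_nonneg _
  have key := split (Icc 5 K) B1 B2 (fun y => VV 32 (2 ^ I - 1) 1 0 y)
    (fun y => C2 * ((lz / I) ^ 2 * e) * VV 32 z 1 0 y) (9 * C2 * L ^ 2 / I)
    (18 * C2 * e * L ^ 8 / (I : ℝ) ^ 2) (by positivity) (by positivity)
    (fun y hy => (mem_Icc.1 hy).1)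
    (fun y _ => mul_nonneg (by positivity) (VVnn _ _ _ _ _)) (by
      intro y hy
      rw [mem_Icc] at hy
      have h1 := (HS z K j0 j0 I y hz1 hz2 hz3 hj0a hj0b le_rfl (hj01'.trans hj1I) hy.1 hy.2).2
      rw [Finset.Ico_self, Finset.sum_empty, Real.exp_zero, mul_one, ← hlz] at h1
      refine h1.trans ?_
      have h2 : (I : ℝ) / j0 ≤ I := div_le_self hI0.le (by exact_mod_cast hj01)
      calc C2 * ((lz / I) ^ 2 * ((I : ℝ) / j0))
          ≤ C2 * (9 * L ^ 2 / (I : ℝ) ^ 2 * I) := by gcongr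
        _ = 9 * C2 * L ^ 2 / I := by field_simp) (by
      intro y hy h6 hnot
      rw [mem_Icc] at hy
      have ht : ∑ j ∈ Ico j0 j1, |bl (y - 2) j| ≤ 1 := by
        by_contra hcon
        apply hnot
        rw [hB1d, mem_filter, mem_Icc]
        exact ⟨⟨by omega, by omega⟩, not_le.1 hcon⟩
      have h1 := (HS z K j0 j1 I y hz1 hz2 hz3 hj0a hj0b hj01' hj1I hy.1 hy.2).2
      rw [← hlz] at h1
      refine h1.trans ?_
      have h2 : Real.exp (∑ j ∈ Ico j0 j1, |bl (y - 2) j|) ≤ e := by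
        rw [hed]; exact Real.exp_le_exp.2 ht
      calc C2 * ((lz / I) ^ 2 * ((I : ℝ) / j1) * Real.exp (∑ j ∈ Ico j0 j1, |bl (y - 2) j|))
          ≤ C2 * (9 * L ^ 2 / (I : ℝ) ^ 2 * (2 * L ^ 6) * e) := by gcongr
        _ = 18 * C2 * e * L ^ 8 / (I : ℝ) ^ 2 := by ring) (by
      intro y hy h6 hnot
      rw [mem_Icc] at hy
      have ht : ∑ j ∈ Ico j0 I, |bl (y - 2) j| ≤ 1 := by
        by_contra hcon
        apply hnot
        rw [hB2d, mem_filter, mem_Icc]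
        exact ⟨⟨by omega, by omega⟩, not_le.1 hcon⟩
      have h1 := (HS z K j0 j0 I y hz1 hz2 hz3 hj0a hj0b le_rfl (hj01'.trans hj1I) hy.1 hy.2).1
      rw [← hlz] at h1
      refine h1.trans ?_
      have h2 : Real.exp (∑ j ∈ Ico j0 I, |bl (y - 2) j|) ≤ e := by
        rw [hed]; exact Real.exp_le_exp.2 ht
      have h3 := VVnn 32 z 1 0 y
      calc C2 * (VV 32 z 1 0 y * (lz / I) ^ 2 * Real.exp (∑ j ∈ Ico j0 I, |bl (y - 2) j|))
          ≤ C2 * (VV 32 z 1 0 y * (lz / I) ^ 2 * e) := by gcongr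
        _ = C2 * ((lz / I) ^ 2 * e) * VV 32 z 1 0 y := by ring)
  refine key.trans ?_
  -- the main term
  have m1 : ∑ y ∈ Icc 5 K, C2 * ((lz / I) ^ 2 * e) * VV 32 z 1 0 y ≤ C1 * C2 * e * c := by
    rw [← Finset.mul_sum]
    have h1 := HA z K (by omega) hz2
    rw [← hlz] at h1
    calc C2 * ((lz / I) ^ 2 * e) * ∑ y ∈ Icc 5 K, VV 32 z 1 0 y
        ≤ C2 * ((lz / I) ^ 2 * e) * (C1 * (K / lz ^ 2)) := by gcongr
      _ = C1 * C2 * e * (K / (I : ℝ) ^ 2) := by field_simp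
      _ ≤ C1 * C2 * e * c := by
          refine mul_le_mul_of_nonneg_left ?_ (by positivity)
          rw [div_le_iff₀ (by positivity)]
          exact hKc
  have hLL : L ≤ L ^ 2 := by
    rw [pow_two]
    calc L = 1 * L := (one_mul L).symm
      _ ≤ L * L := mul_le_mul_of_nonneg_right g3 hL0.le
  have m2 : (1 + (B1.card : ℝ)) * (9 * C2 * L ^ 2 / I) ≤ c := by
    have h1 : (1 + (B1.card : ℝ)) * (9 * C2 * L ^ 2 / I) ≤
        (1 + C3 * (I / L ^ 6 * L * (3 * L))) * (9 * C2 * L ^ 2 / I) := by gcongr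
    have h2 : (1 + C3 * (I / L ^ 6 * L * (3 * L))) * (9 * C2 * L ^ 2 / I) =
        9 * C2 * L ^ 2 / I + 27 * C2 * C3 / L ^ 2 := by
      field_simp
      ring
    have h3 : 9 * C2 * L ^ 2 / I ≤ c / 2 := by
      rw [div_le_iff₀ hI0]
      calc 9 * C2 * L ^ 2 ≤ 9 * C2 * (ε * I) := by gcongr; exact hL2.trans g5
        _ = ε * (18 * C2) / 2 * I := by ring
        _ ≤ c / 2 * I := by gcongr
    have h4 : 27 * C2 * C3 / L ^ 2 ≤ c / 2 := by
      rw [div_le_iff₀ (by positivity)]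
      rw [div_le_iff₀ hc] at hL4
      have : L * c ≤ L ^ 2 * c := mul_le_mul_of_nonneg_right hLL hc.le
      linarith
    linarith
  have m3 : (B2.card : ℝ) * (18 * C2 * e * L ^ 8 / (I : ℝ) ^ 2) ≤ c := by
    have h1 : (B2.card : ℝ) * (18 * C2 * e * L ^ 8 / (I : ℝ) ^ 2) ≤
        C3 * (I * L * (3 * L)) * (18 * C2 * e * L ^ 8 / (I : ℝ) ^ 2) := by gcongr
    have h2 : C3 * (I * L * (3 * L)) * (18 * C2 * e * L ^ 8 / (I : ℝ) ^ 2) =
        54 * C2 * C3 * e * L ^ 10 / I := by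
      field_simp
      ring
    have h3 : 54 * C2 * C3 * e * L ^ 10 / I ≤ c := by
      rw [div_le_iff₀ hI0]
      calc 54 * C2 * C3 * e * L ^ 10 ≤ 54 * C2 * C3 * e * (ε * I) := by gcongr
        _ = ε * (54 * C2 * C3 * e) * I := by ring
        _ ≤ c * I := by gcongr
    linarith
  have m4 : (C1 * C2 * e + 2) * c = C1 * C2 * e * c + c + c := by ring
  rw [m4]
  linarith

end Pool.Agent.Helper3.LPB
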